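import Pool.Agent.Helper6.CX.Goals

/-! Project CX, packet ROT (a disjoint rotation). -/

namespace Pool.Agent.Helper83.CX.ROT

open Pool.Agent.Helper6.CX

theorem rot_one {n : ℕ} (p : Fin n) : (finRotate n p).val = (p.val + 1) % n := by
  have := p.neZero
  rw [finRotate_apply, Fin.val_add, Fin.val_one']
  simp [Nat.add_mod]

theorem rot_pow {n : ℕ} (p : Fin n) (i : ℕ) : (((finRotate n) ^ i) p).val = (p.val + i) % n := by
  induction i with
  | zero => rw [pow_zero, Equiv.Perm.one_apply, add_zero, Nat.mod_eq_of_lt p.isLt]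
  | succ i ih =>
    rw [pow_succ', Equiv.Perm.mul_apply, rot_one, ih, Nat.mod_add_mod, add_assoc]

theorem thm : S_ROT := by
  intro n A B h
  by_contra hc
  push Not at hc
  have h1 : ∀ r : ℕ, ∃ p : Fin n × Fin n, r < n → p ∈ A ×ˢ B ∧
      ((finRotate n) ^ r) p.2 = p.1 := by
    intro r
    by_cases hr : r < n
    · have h2 := hc r hr
      rw [Finset.not_disjoint_iff] at h2
      obtain ⟨a, ha, hb⟩ := h2
      obtain ⟨b, hb, hab⟩ := Finset.mem_image.1 hb
      exact ⟨(a, b), fun _ => ⟨Finset.mem_product.2 ⟨ha, hb⟩, hab⟩⟩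
    · have h0 : 0 < n := by omega
      exact ⟨(⟨0, h0⟩, ⟨0, h0⟩), fun h => absurd h hr⟩
  choose f hf using h1
  have h3 : (Finset.range n).card ≤ (A ×ˢ B).card := by
    refine Finset.card_le_card_of_injOn f (fun r hr => (hf r (Finset.mem_range.1
      (Finset.mem_coe.1 hr))).1) ?_
    intro r hr s hs hrs
    have hr' := Finset.mem_range.1 (Finset.mem_coe.1 hr)
    have hs' := Finset.mem_range.1 (Finset.mem_coe.1 hs)
    have e1 := (hf r hr').2
    have e2 := (hf s hs').2
    rw [← hrs] at e2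
    have e3 := congrArg Fin.val (e1.trans e2.symm)
    rw [rot_pow, rot_pow] at e3
    have e4 : r ≡ s [MOD n] := Nat.ModEq.add_left_cancel' _ e3
    rwa [Nat.ModEq, Nat.mod_eq_of_lt hr', Nat.mod_eq_of_lt hs'] at e4
  rw [Finset.card_range, Finset.card_product] at h3
  omega

end Pool.Agent.Helper83.CX.ROT
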