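import Pool.Agent.Helper6.CX.Goals

/-! Project CX, packet SEL (selection of the intervals). -/

namespace Pool.Agent.Helper83.CX.SEL

open Pool.Agent.Helper6.CX

theorem thm : S_SEL := by
  classical
  intro n m E B hE
  set D := 2 * m + 1 with hD
  have hD0 : 0 < D := by omega
  let A : Finset ℕ := (Finset.range (n / D)).filter fun k => ∀ q ∈ B, q.val / D ≠ k
  have hmem : ∀ k, k ∈ A ↔ D * (k + 1) ≤ n ∧ ∀ q ∈ B, q.val / D ≠ k := by
    intro k
    have h1 : k < n / D ↔ D * (k + 1) ≤ n := by
      rw [← Nat.succ_le_iff, Nat.le_div_iff_mul_le hD0, mul_comm]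
    simp only [A, Finset.mem_filter, Finset.mem_range, h1]
  have hA : n / D ≤ A.card + B.card := by
    have h1 : Finset.range (n / D) ⊆ A ∪ B.image (fun q => q.val / D) := by
      intro k hk
      by_cases h : ∀ q ∈ B, q.val / D ≠ k
      · exact Finset.mem_union_left _ (Finset.mem_filter.2 ⟨hk, h⟩)
      · push Not at h
        obtain ⟨q, hq, hqk⟩ := h
        exact Finset.mem_union_right _ (Finset.mem_image.2 ⟨q, hq, hqk⟩)
    have h2 := (Finset.card_le_card h1).trans (Finset.card_union_le _ _)
    rw [Finset.card_range] at h2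
    have h3 : (B.image (fun q => q.val / D)).card ≤ B.card := Finset.card_image_le
    omega
  obtain ⟨A', hA', hcard⟩ := Finset.exists_subset_card_eq (Nat.mul_div_le A.card E)
  have hdm := Nat.div_add_mod A.card E
  have hlt := Nat.mod_lt A.card (show E > 0 by omega)
  let e := A'.orderEmbOfFin hcard
  refine ⟨E * (A.card / E), fun i => if h : i < E * (A.card / E) then e ⟨i, h⟩ else 0,
    Dvd.intro _ rfl, ⟨?_, ?_, ?_, A \ A', ?_, ?_⟩, ?_⟩
  · intro i hi
    simp only [dif_pos hi]
    exact ((hmem _).1 (hA' (Finset.orderEmbOfFin_mem A' hcard ⟨i, hi⟩))).1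
  · intro i hi j hj h
    simp only [dif_pos hi, dif_pos hj] at h
    exact congrArg Fin.val (e.injective h)
  · intro i hi q hq
    simp only [dif_pos hi]
    exact ((hmem _).1 (hA' (Finset.orderEmbOfFin_mem A' hcard ⟨i, hi⟩))).2 q hq
  · rw [Finset.card_sdiff_of_subset hA', hcard]
    omega
  · intro k hk
    by_cases h : ∀ q ∈ B, q.val / D ≠ k
    · have hkA := (hmem k).2 ⟨hk, h⟩
      by_cases hk' : k ∈ A'
      · left
        have h4 := Finset.range_orderEmbOfFin A' hcard
        have h5 : k ∈ Set.range (A'.orderEmbOfFin hcard) := by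
          rw [h4]
          exact hk'
        obtain ⟨i, hi⟩ := h5
        refine ⟨i.val, i.isLt, ?_⟩
        simp only [dif_pos i.isLt]
        exact hi
      · exact Or.inr (Or.inr (Finset.mem_sdiff.2 ⟨hkA, hk'⟩))
    · push Not at h
      exact Or.inr (Or.inl h)
  · have h6 := Nat.lt_mul_div_succ n hD0
    refine h6.le.trans (Nat.mul_le_mul_left D ?_)
    omega

end Pool.Agent.Helper83.CX.SEL
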